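import Mathlib
import Pool.Agent.Results.MP_7ad46c_co.DensityOne
import Pool.Agent.V11109.DEC.Tend

/-!
# The restricted `3`-critical number of `ℤ_n`, `n` in a sparse sequence

Let `p > 1` be a real number. There is a set `A₀` of real numbers of Hausdorff dimension smaller than
one such that for all `α > 0` outside `A₀`, with `t_j = ⌊α j ^ p⌋` (there are about `X ^ (1 / p)` terms up to
`X`), and all integers `q ≥ 1` for 100% of the `j` the restricted `3`-critical number of the cyclic group of order
`n = q t_j` has the conjectured value `f(n)`.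
-/

set_option autoImplicit false

namespace Pool.Agent.Results.MP_7ad46c_co.SparseOrders

open Pool.Agent.V11109.DEC (nterm Few)
open Pool.Agent.Results.MP_7ad46c_co.DensityOne (Full chi LeastTwo IsValue)

/-- `n ≥ 16` and the restricted `3`-critical number of the cyclic group of order `n` is not `f(n)` -/
def Fails (n : ℕ) : Prop := 16 ≤ n ∧ ¬ IsValue n (chi n)

/-- **Main result.** -/
theorem result (p : ℝ) (hp : 1 < p) : ∃ A₀ : Set ℝ, dimH A₀ < 1 ∧
    ∀ q : ℕ, 1 ≤ q → ∀ η : ℝ, 0 < η → Few p A₀ η q Fails := by
  refine Pool.Agent.V11109.DEC.few_of_tendsto p hp Fails (DensityOne.result.2.congr fun N => ?_)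
  congr 3
  ext n
  constructor
  · rintro ⟨h1, h2, h3⟩
    exact ⟨by omega, h2, h1, h3⟩
  · rintro ⟨-, h2, h1, h3⟩
    exact ⟨h1, h2, h3⟩

end Pool.Agent.Results.MP_7ad46c_co.SparseOrders
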